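import Pool.Agent.H66.IP.TC
import Pool.Agent.H78.XQ.Targets

/-!
# Row BFW (MP_0f8dca_lc): a formula does not see a block
-/

set_option autoImplicit false

namespace Pool.Agent.H52.IP

open Finset Pool.Agent.H6.NB Pool.Agent.H70.EH Pool.Agent.H78.XQ Pool.Agent.H66.IP

private lemma bfw_up {V : Type} {S d : ℕ} (hS : 1 ≤ S) {f : (V → Bool) → Bool}
    (h : Cl V S d f) : Cl V S (d + 1) f := by
  refine ⟨1, fun _ => f, fun _ => true, hS, fun _ => h, fun y => ?_⟩
  constructor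
  · intro hy
    exact ⟨0, hy⟩
  · rintro ⟨_, hy⟩
    exact hy

private lemma bfw_not {V : Type} {S d : ℕ} (hS : 1 ≤ S) {f : (V → Bool) → Bool}
    (h : Cl V S d f) : Cl V S (d + 1) fun y => !f y := by
  refine ⟨1, fun _ => f, fun _ => false, hS, fun _ => h, fun y => ?_⟩
  constructor
  · intro hy
    exact ⟨0, by simpa using hy⟩
  · rintro ⟨_, hy⟩
    simpa using hy

private lemma bfw_bi_le (b : Bool) : 0 ≤ bi b ∧ bi b ≤ 1 := by
  cases b <;> simp [bi]

private lemma bfw_bi_not (b : Bool) : bi (!b) = 1 - bi b := by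
  cases b <;> simp [bi]

theorem pf_BFW (hBLX : Pool.Agent.H78.XQ.T_BLX) (hMAS : Pool.Agent.H78.XQ.T_MAS) : T_BFW := by
  intro r l q R n hSz b B h1 h2
  have hS : 1 ≤ 2 ^ 2 ^ r ^ 2 := Nat.one_le_two_pow
  obtain ⟨hm0, hs0, hm⟩ := hMAS q l R n
  obtain ⟨hmB, hsB⟩ := hm b
  have e1 := hBLX r l q R n hSz b B (fun P u h => bfw_up hS (h1 P u h))
    (fun P => bfw_up hS (h2 P))
  have e2 := hBLX r l q R n hSz b (fun c => !B c) (fun P u h => bfw_not hS (h1 P u h))
    (fun P => bfw_not hS (h2 P))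
  have ha0 : 0 ≤ ∑ c, m0 q l n c * bi (B c) :=
    Finset.sum_nonneg fun c _ => mul_nonneg (hm0 c) (bfw_bi_le _).1
  have ha' : ∑ c, m0 q l n c * bi (!B c) = 1 - ∑ c, m0 q l n c * bi (B c) := by
    rw [← hs0, ← Finset.sum_sub_distrib]
    refine Finset.sum_congr rfl fun c _ => ?_
    rw [bfw_bi_not]
    ring
  have hA' : ∑ c, mB q l R n b c * bi (!B c) ≤ 1 - ∑ c, mB q l R n b c * bi (B c) := by
    have h3 : ∑ c, mB q l R n b c * bi (!B c) =
        ∑ c, mB q l R n b c - ∑ c, mB q l R n b c * bi (B c) := by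
      rw [← Finset.sum_sub_distrib]
      refine Finset.sum_congr rfl fun c _ => ?_
      rw [bfw_bi_not]
      ring
    rw [h3]
    linarith
  have ha1 : 0 ≤ ∑ c, m0 q l n c * bi (!B c) :=
    Finset.sum_nonneg fun c _ => mul_nonneg (hm0 c) (bfw_bi_le _).1
  rw [ha'] at e2 ha1
  set a := ∑ c, m0 q l n c * bi (B c) with ha
  set A := ∑ c, mB q l R n b c * bi (B c) with hA
  set A' := ∑ c, mB q l R n b c * bi (!B c) with hAA
  set ε : ℝ := (1 / 8) ^ r with hε
  have hε0 : 0 < ε := by positivity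
  have hδ : ε / (4 * 2 ^ 2 ^ r) ≤ ε / 4 := by
    apply div_le_div_of_nonneg_left hε0.le (by norm_num)
    have : (1 : ℝ) ≤ 2 ^ 2 ^ r := one_le_pow₀ (by norm_num)
    linarith
  rw [abs_le]
  constructor
  · nlinarith [mul_nonneg hε0.le ha1]
  · nlinarith [mul_nonneg hε0.le ha0]

end Pool.Agent.H52.IP
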