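import Pool.Agent.H66.IP.TC
import Pool.Agent.H78.XQ.Targets

/-!
# Row FIN (MP_0f8dca_lc): the assembly of the stages
-/

set_option autoImplicit false

namespace Pool.Agent.H52.IP

open Finset Pool.Agent.H6.NB Pool.Agent.H70.OQ Pool.Agent.H70.EH Pool.Agent.H70.EI
open Pool.Agent.H78.XQ Pool.Agent.H66.IP
open Pool.Agent.H75.OM (BPos)

/-- the requirements -/
private def finR (W : ℕ → (k : ℕ) × Machine (k + 1)) (G : ℕ → List Bool → Game) (k : ℕ)
    (O : List Bool → Bool) : Prop :=
  (k % 2 = 0 → ∃ n ≥ (Nat.unpair (k / 2)).2,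
    ¬ (G (Nat.unpair (k / 2)).1 (List.replicate n false)).Proves O
      (List.replicate n false ∉ wit O)) ∧
  (k % 2 = 1 → (W (k / 2)).2.lang O ≠ plang ((W (k / 2)).1 + 1) O)

theorem pf_FIN (hFUS : Pool.Agent.H66.IP.T_FUS) (hGST : Pool.Agent.H66.IP.T_GST)
    (hWST : Pool.Agent.H66.IP.T_WST) (hSPF : Pool.Agent.H66.IP.T_SPF)
    (hGLC : Pool.Agent.H66.IP.T_GLC) (hEXA : Pool.Agent.H78.XQ.T_EXA) :
    Pool.Agent.H66.IP.T_FIN := by
  intro V W G hG
  obtain ⟨hins, hscl, -, -, -, -⟩ := hSPF V
  have hle : ∀ p, scl V p ≤ (sp V p).length := by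
    intro p
    obtain ⟨h1, h2, -⟩ := hscl p
    have h3 : scl V p ≤ scl V p ^ 3 := Nat.le_self_pow (by norm_num) _
    omega
  have hpos : ∀ p, 0 < (sp V p).length := by
    intro p
    have h1 := (hscl p).1
    have h2 := hle p
    omega
  have hloc : ∀ (p : ℕ × List Bool) (O O' : List Bool → Bool),
      (∀ w, w.length ≤ (sp V p).length ∨ BPos (dm V) p w → O w = O' w) →
      Good V p O → Good V p O' := by
    intro p O O' h hO
    refine hGLC V p O O' ?_ hO
    intro w hw
    apply h
    rcases hw with hw | hw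
    · left
      have := hle p
      omega
    · right
      exact hw
  have hstage : ∀ (k M : ℕ) (O : List Bool → Bool),
      (∀ p, (sp V p).length ≤ M → Good V p O) → ∃ (M' : ℕ) (O' : List Bool → Bool), M < M' ∧
      (∀ w, (w.length ≤ M ∨ ∃ p, (sp V p).length ≤ M ∧ BPos (dm V) p w) → O' w = O w) ∧
      (∀ p, (sp V p).length ≤ M' → Good V p O') ∧
      ∀ O'', (∀ w : List Bool, w.length ≤ M' → O'' w = O' w) → finR W G k O'' := by
    intro k M O hO
    rcases Nat.mod_two_eq_zero_or_one k with hk | hk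
    · obtain ⟨M', O', hE, hR⟩ := hGST V
        (fun n => G (Nat.unpair (k / 2)).1 (List.replicate n false))
        (fun n => by
          have h := hG (Nat.unpair (k / 2)).1 (List.replicate n false)
          rw [List.length_replicate] at h
          exact h) (Nat.unpair (k / 2)).2 M O hO
      refine ⟨M', O', hE.lt, hE.eq, hE.good, ?_⟩
      intro O'' hO''
      refine ⟨fun _ => hR O'' hO'', fun h => ?_⟩
      omega
    · obtain ⟨M', O', hE, hR⟩ := hWST V (W (k / 2)).1 (W (k / 2)).2 M O hO
      refine ⟨M', O', hE.lt, hE.eq, hE.good, ?_⟩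
      intro O'' hO''
      refine ⟨fun h => ?_, fun _ => hR O'' hO''⟩
      omega
  obtain ⟨O, hgood, hR⟩ := hFUS (ℕ × List Bool) (fun p => (sp V p).length)
    (fun p w => BPos (dm V) p w) (fun p O => Good V p O) (finR W G) hpos hloc hstage
  refine ⟨O, ?_, ?_, ?_⟩
  · intro i x
    have hg := hgood (i, x)
    unfold Good OkB at hg
    have hfit := hg.2
    have he := hEXA O (sp V (i, x)) _ hfit
    rw [hins (i, x)] at he
    change (exact (ins (V i).c i x)).prob O = _ at he
    constructor
    · intro hacc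
      rw [he]
      simp [hacc]
    · intro hacc
      rw [he]
      simp [hacc]
  · intro j N
    have h := (hR (2 * Nat.pair j N)).1 (by omega)
    have h2 : 2 * Nat.pair j N / 2 = Nat.pair j N := by omega
    rw [h2, Nat.unpair_pair] at h
    exact h
  · intro j
    have h := (hR (2 * j + 1)).2 (by omega)
    have h2 : (2 * j + 1) / 2 = j := by omega
    rw [h2] at h
    exact h

end Pool.Agent.H52.IP
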